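import Pool.Agent.W2helper44.CP.Stm

/-!
# Project CP (helper44, MP_28b04d_gt), piece WIG2: second half of Wigner's theorem for `CP²`

`∑ |P_ij - Q_ij|² = 2 - 2 T(P, Q)` on `CP²`, `T` the trace form in nine real coordinates.  `h` fixes the
nine projections `E_0, E_1, E_2, P⁺_01, P⁺_02, P⁺_12, P^i, R_1, R_2` which span the Hermitian matrices.
-/

set_option autoImplicit false

open Set

noncomputable section

namespace Pool.Agent.W2helper44.CP

namespace H71W

/-- the coordinates of points of `CP²` and their relations -/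
structure Co (P : Mat3) : Prop where
  i0 : (P 0 0).im = 0
  i1 : (P 1 1).im = 0
  i2 : (P 2 2).im = 0
  s10 : P 1 0 = star (P 0 1)
  s20 : P 2 0 = star (P 0 2)
  s21 : P 2 1 = star (P 1 2)
  tr : (P 0 0).re + (P 1 1).re + (P 2 2).re = 1
  n01 : (P 0 1).re ^ 2 + (P 0 1).im ^ 2 = (P 0 0).re * (P 1 1).re
  n02 : (P 0 2).re ^ 2 + (P 0 2).im ^ 2 = (P 0 0).re * (P 2 2).re
  n12 : (P 1 2).re ^ 2 + (P 1 2).im ^ 2 = (P 1 1).re * (P 2 2).re
  mr : (P 0 1).re * (P 1 2).re - (P 0 1).im * (P 1 2).im = (P 1 1).re * (P 0 2).re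
  mi : (P 0 1).re * (P 1 2).im + (P 0 1).im * (P 1 2).re = (P 1 1).re * (P 0 2).im

lemma co_of_mem {P : Mat3} (hP : P ∈ CP2) : Co P := by
  obtain ⟨hs, hm, ht⟩ := hP
  have i0 : (P 0 0).im = 0 := by
    have := congrArg Complex.im (hs 0 0)
    simp at this
    linarith
  have i1 : (P 1 1).im = 0 := by
    have := congrArg Complex.im (hs 1 1)
    simp at this
    linarith
  have i2 : (P 2 2).im = 0 := by
    have := congrArg Complex.im (hs 2 2)
    simp at this
    linarith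
  have s10 := hs 0 1
  have s20 := hs 0 2
  have s21 := hs 1 2
  rw [Fin.sum_univ_three] at ht
  have h00 := hm 0 0
  have h11 := hm 1 1
  have h22 := hm 2 2
  have h02 := hm 0 2
  rw [Fin.sum_univ_three] at h00 h11 h22 h02
  have e01 : P 0 1 * P 1 0 = P 0 0 * P 1 1 := by
    linear_combination -h22 + P 2 2 * ht
      - (1 / 2) * ((P 0 0 + P 1 1 + P 2 2) * ht - h00 - h11 - h22)
  have e02 : P 0 2 * P 2 0 = P 0 0 * P 2 2 := by
    linear_combination -h11 + P 1 1 * ht
      - (1 / 2) * ((P 0 0 + P 1 1 + P 2 2) * ht - h00 - h11 - h22)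
  have e12 : P 1 2 * P 2 1 = P 1 1 * P 2 2 := by
    linear_combination -h00 + P 0 0 * ht
      - (1 / 2) * ((P 0 0 + P 1 1 + P 2 2) * ht - h00 - h11 - h22)
  have em : P 0 1 * P 1 2 = P 1 1 * P 0 2 := by
    linear_combination h02 - P 0 2 * ht
  rw [s10] at e01
  rw [s20] at e02
  rw [s21] at e12
  have r01 := congrArg Complex.re e01
  have r02 := congrArg Complex.re e02
  have r12 := congrArg Complex.re e12
  have rm := congrArg Complex.re em
  have im := congrArg Complex.im em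
  have rt := congrArg Complex.re ht
  simp [i0, i1, i2] at r01 r02 r12 rm im rt
  exact ⟨i0, i1, i2, s10, s20, s21, by linarith, by linarith, by linarith, by linarith, by linarith,
    by linarith⟩

/-- the trace form -/
def T (P Q : Mat3) : ℝ := (P 0 0).re * (Q 0 0).re + (P 1 1).re * (Q 1 1).re +
  (P 2 2).re * (Q 2 2).re + 2 * ((P 0 1).re * (Q 0 1).re + (P 0 1).im * (Q 0 1).im) +
  2 * ((P 0 2).re * (Q 0 2).re + (P 0 2).im * (Q 0 2).im) +
  2 * ((P 1 2).re * (Q 1 2).re + (P 1 2).im * (Q 1 2).im)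

lemma self_T {P : Mat3} (hP : Co P) : T P P = 1 := by
  have h1 := hP.tr
  unfold T
  have h2 : ((P 0 0).re + (P 1 1).re + (P 2 2).re) ^ 2 = 1 := by rw [h1]; norm_num
  linear_combination h2 + 2 * hP.n01 + 2 * hP.n02 + 2 * hP.n12

lemma dist_eq {P Q : Mat3} (hP : Co P) (hQ : Co Q) :
    ∑ i, ∑ j, ‖P i j - Q i j‖ ^ 2 = 2 - 2 * T P Q := by
  have hp := self_T hP
  have hq := self_T hQ
  simp only [← Complex.normSq_eq_norm_sq, Complex.normSq_apply, Fin.sum_univ_three, hP.s10, hP.s20,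
    hP.s21, hQ.s10, hQ.s20, hQ.s21, Complex.sub_re, Complex.sub_im, hP.i0, hP.i1, hP.i2, hQ.i0, hQ.i1,
    hQ.i2]
  simp only [RCLike.star_def, Complex.conj_re, Complex.conj_im]
  unfold T at hp hq ⊢
  linear_combination hp + hq

lemma ext' {P Q : Mat3} (hP : Co P) (hQ : Co Q) (h0 : (P 0 0).re = (Q 0 0).re)
    (h1 : (P 1 1).re = (Q 1 1).re) (h2 : (P 2 2).re = (Q 2 2).re) (h01 : P 0 1 = Q 0 1)
    (h02 : P 0 2 = Q 0 2) (h12 : P 1 2 = Q 1 2) : P = Q := by
  have e0 : P 0 0 = Q 0 0 := Complex.ext h0 (by rw [hP.i0, hQ.i0])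
  have e1 : P 1 1 = Q 1 1 := Complex.ext h1 (by rw [hP.i1, hQ.i1])
  have e2 : P 2 2 = Q 2 2 := Complex.ext h2 (by rw [hP.i2, hQ.i2])
  have s10 := hP.s10
  have s20 := hP.s20
  have s21 := hP.s21
  rw [h01, ← hQ.s10] at s10
  rw [h02, ← hQ.s20] at s20
  rw [h12, ← hQ.s21] at s21
  funext i j
  fin_cases i <;> fin_cases j <;> assumption

/-- the projection to the vector `v` with `|v_i|² ` summing to `n` -/
def pr (n : ℝ) (v : Fin 3 → ℂ) : Mat3 := fun i j => v i * star (v j) / (n : ℂ)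

lemma pr_mem {n : ℝ} (hn : n ≠ 0) {v : Fin 3 → ℂ} (h : ∑ i, v i * star (v i) = (n : ℂ)) :
    pr n v ∈ CP2 := by
  have hn' : (n : ℂ) ≠ 0 := by exact_mod_cast hn
  refine ⟨fun i j => ?_, fun i j => ?_, ?_⟩
  · simp only [pr, RCLike.star_def, map_div₀, map_mul, Complex.conj_conj, Complex.conj_ofReal]
    ring
  · have : ∑ k, pr n v i k * pr n v k j =
        (∑ k, v k * star (v k)) * (v i * star (v j)) / ((n : ℂ) * n) := by
      rw [Finset.sum_mul, Finset.sum_div]
      refine Finset.sum_congr rfl fun k _ => ?_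
      simp only [pr]
      field_simp
    rw [this, h]
    simp only [pr]
    field_simp
  · simp only [pr]
    rw [← Finset.sum_div, h]
    field_simp

lemma E_mem (k : Fin 3) : Ecoord k ∈ CP2 := by
  refine ⟨fun i j => ?_, fun i j => ?_, ?_⟩
  · fin_cases k <;> fin_cases i <;> fin_cases j <;> simp [Ecoord]
  · fin_cases k <;> fin_cases i <;> fin_cases j <;> simp [Ecoord]
  · fin_cases k <;> simp [Ecoord]

lemma J_mem : Jproj ∈ CP2 := by
  refine ⟨fun i j => ?_, fun i j => ?_, ?_⟩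
  · simp [Jproj]
  · simp [Jproj]
  · simp [Jproj]

/-- the hypotheses on `h` -/
structure Hy (h : Mat3 → Mat3) : Prop where
  m : MapsTo h CP2 CP2
  t : ∀ P ∈ CP2, ∀ Q ∈ CP2, T (h P) (h Q) = T P Q
  e : ∀ k, h (Ecoord k) = Ecoord k
  j : h Jproj = Jproj

lemma Hy.fix {h : Mat3 → Mat3} (H : Hy h) {S : Mat3} (hS : S ∈ CP2) (hf : h S = S) {P : Mat3}
    (hP : P ∈ CP2) : T (h P) S = T P S := by
  have := H.t P hP S hS
  rwa [hf] at this

lemma Hy.d0 {h : Mat3 → Mat3} (H : Hy h) {P : Mat3} (hP : P ∈ CP2) :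
    (h P 0 0).re = (P 0 0).re := by
  have := H.fix (E_mem 0) (H.e 0) hP
  simpa [T, Ecoord] using this

lemma Hy.d1 {h : Mat3 → Mat3} (H : Hy h) {P : Mat3} (hP : P ∈ CP2) :
    (h P 1 1).re = (P 1 1).re := by
  have := H.fix (E_mem 1) (H.e 1) hP
  simpa [T, Ecoord] using this

lemma Hy.d2 {h : Mat3 → Mat3} (H : Hy h) {P : Mat3} (hP : P ∈ CP2) :
    (h P 2 2).re = (P 2 2).re := by
  have := H.fix (E_mem 2) (H.e 2) hP
  simpa [T, Ecoord] using this

/-- the sum of the real parts of the entries is preserved -/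
lemma Hy.sum {h : Mat3 → Mat3} (H : Hy h) {P : Mat3} (hP : P ∈ CP2) :
    (h P 0 1).re + (h P 0 2).re + (h P 1 2).re = (P 0 1).re + (P 0 2).re + (P 1 2).re := by
  have h1 := H.fix J_mem H.j hP
  have h0 := H.d0 hP
  have h2 := H.d1 hP
  have h3 := H.d2 hP
  simp [T, Jproj] at h1
  linarith

lemma zero_of {z : ℂ} {a b : ℝ} (h : z.re ^ 2 + z.im ^ 2 = a * b) (hb : a * b = 0) : z = 0 := by
  rw [hb] at h
  have h1 : z.re = 0 := by nlinarith [sq_nonneg z.re, sq_nonneg z.im]
  have h2 : z.im = 0 := by nlinarith [sq_nonneg z.re, sq_nonneg z.im]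
  exact Complex.ext h1 h2

/-- the projections to `e_i + e_j` -/
def P01 : Mat3 := pr 2 ![1, 1, 0]
def P02 : Mat3 := pr 2 ![1, 0, 1]
def P12 : Mat3 := pr 2 ![0, 1, 1]
/-- the projection to `e_0 + i e_1` -/
def Pi : Mat3 := pr 2 ![1, Complex.I, 0]
/-- the projections to `(1, i, i)` and `(1, i, 1)` -/
def R1 : Mat3 := pr 3 ![1, Complex.I, Complex.I]
def R2 : Mat3 := pr 3 ![1, Complex.I, 1]

lemma P01_mem : P01 ∈ CP2 := pr_mem (by norm_num) (by simp [Fin.sum_univ_three]; norm_num)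
lemma P02_mem : P02 ∈ CP2 := pr_mem (by norm_num) (by simp [Fin.sum_univ_three]; norm_num)
lemma P12_mem : P12 ∈ CP2 := pr_mem (by norm_num) (by simp [Fin.sum_univ_three]; norm_num)
lemma Pi_mem : Pi ∈ CP2 := pr_mem (by norm_num) (by simp [Fin.sum_univ_three]; norm_num)
lemma R1_mem : R1 ∈ CP2 := pr_mem (by norm_num) (by simp [Fin.sum_univ_three]; norm_num)
lemma R2_mem : R2 ∈ CP2 := pr_mem (by norm_num) (by simp [Fin.sum_univ_three]; norm_num)

lemma im_zero {z : ℂ} {a b : ℝ} (h : z.re ^ 2 + z.im ^ 2 = a * b) (hr : z.re ^ 2 = a * b) :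
    z.im = 0 := by
  rw [hr] at h
  have : z.im ^ 2 = 0 := by linarith
  exact pow_eq_zero_iff (two_ne_zero) |>.1 this

lemma Hy.f01 {h : Mat3 → Mat3} (H : Hy h) : h P01 = P01 := by
  have hc := co_of_mem (H.m P01_mem)
  have hc' := co_of_mem P01_mem
  have h0 := H.d0 P01_mem
  have h1 := H.d1 P01_mem
  have h2 := H.d2 P01_mem
  have hs := H.sum P01_mem
  have e0 : (P01 0 0).re = 1 / 2 := by simp [P01, pr]
  have e1 : (P01 1 1).re = 1 / 2 := by simp [P01, pr]
  have e2 : (P01 2 2).re = 0 := by simp [P01, pr]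
  have e01 : P01 0 1 = 1 / 2 := by simp [P01, pr]
  have e02 : P01 0 2 = 0 := by simp [P01, pr]
  have e12 : P01 1 2 = 0 := by simp [P01, pr]
  have z02 : h P01 0 2 = 0 := zero_of hc.n02 (by rw [h2, e2, mul_zero])
  have z12 : h P01 1 2 = 0 := zero_of hc.n12 (by rw [h2, e2, mul_zero])
  have hn := hc.n01
  rw [z02, z12, e02, e12, e01] at hs
  have hr : (h P01 0 1).re = 1 / 2 := by simpa using hs
  have hi : (h P01 0 1).im = 0 := im_zero hn (by rw [hr, h0, h1, e0, e1]; norm_num)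
  refine ext' hc hc' h0 h1 h2 ?_ (by rw [z02, e02]) (by rw [z12, e12])
  rw [e01]
  exact Complex.ext (by rw [hr]; simp) (by rw [hi]; simp)

lemma Hy.f02 {h : Mat3 → Mat3} (H : Hy h) : h P02 = P02 := by
  have hc := co_of_mem (H.m P02_mem)
  have hc' := co_of_mem P02_mem
  have h0 := H.d0 P02_mem
  have h1 := H.d1 P02_mem
  have h2 := H.d2 P02_mem
  have hs := H.sum P02_mem
  have e0 : (P02 0 0).re = 1 / 2 := by simp [P02, pr]
  have e1 : (P02 1 1).re = 0 := by simp [P02, pr]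
  have e2 : (P02 2 2).re = 1 / 2 := by simp [P02, pr]
  have e01 : P02 0 1 = 0 := by simp [P02, pr]
  have e02 : P02 0 2 = 1 / 2 := by simp [P02, pr]
  have e12 : P02 1 2 = 0 := by simp [P02, pr]
  have z01 : h P02 0 1 = 0 := zero_of hc.n01 (by rw [h1, e1, mul_zero])
  have z12 : h P02 1 2 = 0 := zero_of hc.n12 (by rw [h1, e1, zero_mul])
  have hn := hc.n02
  rw [z01, z12, e02, e12, e01] at hs
  have hr : (h P02 0 2).re = 1 / 2 := by simpa using hs
  have hi : (h P02 0 2).im = 0 := im_zero hn (by rw [hr, h0, h2, e0, e2]; norm_num)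
  refine ext' hc hc' h0 h1 h2 (by rw [z01, e01]) ?_ (by rw [z12, e12])
  rw [e02]
  exact Complex.ext (by rw [hr]; simp) (by rw [hi]; simp)

lemma Hy.f12 {h : Mat3 → Mat3} (H : Hy h) : h P12 = P12 := by
  have hc := co_of_mem (H.m P12_mem)
  have hc' := co_of_mem P12_mem
  have h0 := H.d0 P12_mem
  have h1 := H.d1 P12_mem
  have h2 := H.d2 P12_mem
  have hs := H.sum P12_mem
  have e0 : (P12 0 0).re = 0 := by simp [P12, pr]
  have e1 : (P12 1 1).re = 1 / 2 := by simp [P12, pr]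
  have e2 : (P12 2 2).re = 1 / 2 := by simp [P12, pr]
  have e01 : P12 0 1 = 0 := by simp [P12, pr]
  have e02 : P12 0 2 = 0 := by simp [P12, pr]
  have e12 : P12 1 2 = 1 / 2 := by simp [P12, pr]
  have z01 : h P12 0 1 = 0 := zero_of hc.n01 (by rw [h0, e0, zero_mul])
  have z02 : h P12 0 2 = 0 := zero_of hc.n02 (by rw [h0, e0, zero_mul])
  have hn := hc.n12
  rw [z01, z02, e02, e12, e01] at hs
  have hr : (h P12 1 2).re = 1 / 2 := by simpa using hs
  have hi : (h P12 1 2).im = 0 := im_zero hn (by rw [hr, h1, h2, e1, e2]; norm_num)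
  refine ext' hc hc' h0 h1 h2 (by rw [z01, e01]) (by rw [z02, e02]) ?_
  rw [e12]
  exact Complex.ext (by rw [hr]; simp) (by rw [hi]; simp)

lemma Hy.r01 {h : Mat3 → Mat3} (H : Hy h) {P : Mat3} (hP : P ∈ CP2) :
    (h P 0 1).re = (P 0 1).re := by
  have h1 := H.fix P01_mem H.f01 hP
  have h0 := H.d0 hP
  have h2 := H.d1 hP
  simp [T, P01, pr] at h1
  linarith

lemma Hy.r02 {h : Mat3 → Mat3} (H : Hy h) {P : Mat3} (hP : P ∈ CP2) :
    (h P 0 2).re = (P 0 2).re := by
  have h1 := H.fix P02_mem H.f02 hP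
  have h0 := H.d0 hP
  have h2 := H.d2 hP
  simp [T, P02, pr] at h1
  linarith

lemma Hy.r12 {h : Mat3 → Mat3} (H : Hy h) {P : Mat3} (hP : P ∈ CP2) :
    (h P 1 2).re = (P 1 2).re := by
  have h1 := H.fix P12_mem H.f12 hP
  have h0 := H.d1 hP
  have h2 := H.d2 hP
  simp [T, P12, pr] at h1
  linarith

/-- `h` maps the projection to `e_0 + i e_1` to itself or its conjugate -/
lemma Hy.fi {h : Mat3 → Mat3} (H : Hy h) : h Pi = Pi ∨ h Pi = bar Pi := by
  have hc := co_of_mem (H.m Pi_mem)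
  have hc' := co_of_mem Pi_mem
  have h0 := H.d0 Pi_mem
  have h1 := H.d1 Pi_mem
  have h2 := H.d2 Pi_mem
  have hr := H.r01 Pi_mem
  have e0 : Pi 0 0 = 1 / 2 := by simp [Pi, pr]
  have e1 : Pi 1 1 = 1 / 2 := by simp [Pi, pr]
  have e2 : Pi 2 2 = 0 := by simp [Pi, pr]
  have e01 : Pi 0 1 = -Complex.I / 2 := by simp [Pi, pr]
  have e02 : Pi 0 2 = 0 := by simp [Pi, pr]
  have e12 : Pi 1 2 = 0 := by simp [Pi, pr]
  have z02 : h Pi 0 2 = 0 := zero_of hc.n02 (by rw [h2, e2]; simp)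
  have z12 : h Pi 1 2 = 0 := zero_of hc.n12 (by rw [h2, e2]; simp)
  have hn := hc.n01
  have hr' : (h Pi 0 1).re = 0 := by rw [hr, e01]; simp
  rw [hr', h0, h1, e0, e1] at hn
  have hi : ((h Pi 0 1).im + 1 / 2) * ((h Pi 0 1).im - 1 / 2) = 0 := by
    norm_num at hn
    linarith
  rcases mul_eq_zero.1 hi with hi | hi
  · left
    refine ext' hc hc' h0 h1 h2 ?_ (by rw [z02, e02]) (by rw [z12, e12])
    rw [e01]
    exact Complex.ext (by rw [hr']; simp) (by simp; linarith)
  · right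
    have hb : Co (bar Pi) := by
      refine co_of_mem ⟨fun i j => ?_, fun i j => ?_, ?_⟩
      · simp only [bar]
        rw [Pi_mem.1 i j]
      · have := congrArg star (Pi_mem.2.1 i j)
        simpa [bar] using this
      · have := congrArg star Pi_mem.2.2
        simpa [bar] using this
    refine ext' hc hb ?_ ?_ ?_ ?_ ?_ ?_
    · rw [h0, e0]; simp [bar, e0]
    · rw [h1, e1]; simp [bar, e1]
    · rw [h2, e2]; simp [bar, e2]
    · simp only [bar, e01]
      exact Complex.ext (by rw [hr']; simp) (by simp; linarith)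
    · simp only [bar, e02, z02]; simp
    · simp only [bar, e12, z12]; simp

/-- the direct argument -/
lemma Hy.direct {h : Mat3 → Mat3} (H : Hy h) {P : Mat3} (hP : P ∈ CP2)
    (hi : (h P 0 1).im = (P 0 1).im) (hne : (P 0 1).im ≠ 0) : h P = P := by
  have hc := co_of_mem (H.m hP)
  have hc' := co_of_mem hP
  have h0 := H.d0 hP
  have h1 := H.d1 hP
  have h2 := H.d2 hP
  have r01 := H.r01 hP
  have r02 := H.r02 hP
  have r12 := H.r12 hP
  have a1 := hc.mr
  have a2 := hc'.mr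
  have a3 := hc.mi
  have a4 := hc'.mi
  rw [r01, hi, r12, h1, r02] at a1
  rw [r01, hi, r12, h1] at a3
  have s : (h P 1 2).im = (P 1 2).im := by
    have : (P 0 1).im * ((h P 1 2).im - (P 1 2).im) = 0 := by linarith
    rcases mul_eq_zero.1 this with h' | h'
    · exact absurd h' hne
    · linarith
  have hne1 : (P 1 1).re ≠ 0 := by
    intro h'
    have := hc'.n01
    rw [h', mul_zero] at this
    have h3 : (P 0 1).im ^ 2 = 0 := by nlinarith [sq_nonneg (P 0 1).re, sq_nonneg (P 0 1).im]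
    exact hne (pow_eq_zero_iff (two_ne_zero) |>.1 h3)
  have t : (h P 0 2).im = (P 0 2).im := by
    rw [s] at a3
    exact mul_left_cancel₀ hne1 (by linarith)
  exact ext' hc hc' h0 h1 h2 (Complex.ext r01 hi) (Complex.ext r02 t) (Complex.ext r12 s)

/-- `h` is the identity if it fixes also the projection to `e_0 + i e_1` -/
lemma Hy.core {h : Mat3 → Mat3} (H : Hy h) (hi : h Pi = Pi) : ∀ P ∈ CP2, h P = P := by
  have i01 : ∀ P ∈ CP2, (h P 0 1).im = (P 0 1).im := by
    intro P hP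
    have h1 := H.fix Pi_mem hi hP
    have h0 := H.d0 hP
    have h2 := H.d1 hP
    simp [T, Pi, pr] at h1
    linarith
  have f1 : h R1 = R1 := H.direct R1_mem (i01 _ R1_mem) (by simp [R1, pr])
  have f2 : h R2 = R2 := H.direct R2_mem (i01 _ R2_mem) (by simp [R2, pr])
  intro P hP
  have hc := co_of_mem (H.m hP)
  have hc' := co_of_mem hP
  have h0 := H.d0 hP
  have h1 := H.d1 hP
  have h2 := H.d2 hP
  have r01 := H.r01 hP
  have r02 := H.r02 hP
  have r12 := H.r12 hP
  have ii := i01 P hP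
  have g1 := H.fix R1_mem f1 hP
  have g2 := H.fix R2_mem f2 hP
  simp [T, R1, pr] at g1
  simp [T, R2, pr] at g2
  rw [h0, h1, h2, r12, ii] at g1
  rw [h0, h1, h2, r02, ii] at g2
  refine ext' hc hc' h0 h1 h2 (Complex.ext r01 ii) (Complex.ext r02 ?_) (Complex.ext r12 ?_)
  · linarith
  · linarith

end H71W

open H71W in
theorem p_WIG2 : P_WIG2 := by
  intro h hm hd he hj
  have H : Hy h := by
    refine ⟨hm, fun P hP Q hQ => ?_, he, hj⟩
    have := hd P hP Q hQ
    rw [dist_eq (co_of_mem (hm hP)) (co_of_mem (hm hQ)), dist_eq (co_of_mem hP) (co_of_mem hQ)] at this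
    linarith
  rcases H.fi with hf | hf
  · exact Or.inl (H.core hf)
  · right
    have bb : ∀ P : Mat3, bar (bar P) = P := by
      intro P
      funext i j
      simp [bar]
    have bm : ∀ P ∈ CP2, bar P ∈ CP2 := by
      rintro P ⟨h1, h2, h3⟩
      refine ⟨fun i j => ?_, fun i j => ?_, ?_⟩
      · simp only [bar]
        rw [h1 i j]
      · have := congrArg star (h2 i j)
        simpa [bar] using this
      · have := congrArg star h3
        simpa [bar] using this
    have H' : Hy fun P => bar (h P) := by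
      refine ⟨fun P hP => bm _ (hm hP), fun P hP Q hQ => ?_, fun k => ?_, ?_⟩
      · rw [← H.t P hP Q hQ]
        simp [T, bar]
      · simp only [he k]
        funext i j
        simp only [bar, Ecoord]
        split_ifs <;> simp
      · simp only [hj]
        funext i j
        simp [bar, Jproj]
    have := H'.core (by simp only [hf, bb])
    intro P hP
    have h1 : bar (h P) = P := this P hP
    rw [← bb (h P), h1]

end Pool.Agent.W2helper44.CP
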